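import Pool.Agent.SGB.Stmts

/-!
# FIB: fibres
-/

set_option autoImplicit false

open Finset
open scoped Pointwise

namespace Pool.Agent.SGB.H67

universe u

open Classical in
theorem card_filter_mem {H : Type u} [AddCommGroup H] [Fintype H] (K : AddSubgroup H) :
    (univ.filter fun x : H => x ∈ K).card = Nat.card K := by
  rw [Nat.card_eq_fintype_card, Fintype.card_subtype]

open Classical in
/-- the counting argument -/
theorem fib_aux {H : Type u} [AddCommGroup H] [Fintype H] (D W : Finset H) (g α β : H → H)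
    (K L : AddSubgroup H) (hg : ∀ d ∈ D, g d ∈ W)
    (h : ∀ d ∈ D, ∀ d' ∈ D, g d = g d' → α d - α d' ∈ K ∧ β d - β d' ∈ L)
    (hd : ∀ d ∈ D, d = α d - β d) :
    D.card ≤ Nat.card K * Nat.card L * W.card := by
  refine Finset.card_le_mul_card_image_of_maps_to hg _ fun x _ => ?_
  rcases (D.filter fun d => g d = x).eq_empty_or_nonempty with h0 | ⟨d0, h0⟩
  · rw [h0, Finset.card_empty]
    exact Nat.zero_le _
  · rw [Finset.mem_filter] at h0
    rw [← card_filter_mem K, ← card_filter_mem L, ← Finset.card_product]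
    refine Finset.card_le_card_of_injOn (fun d => (α d - α d0, β d - β d0)) ?_ ?_
    · intro d hd1
      have h1 := Finset.mem_filter.mp (Finset.mem_coe.mp hd1)
      obtain ⟨h2, h3⟩ := h d h1.1 d0 h0.1 (h1.2.trans h0.2.symm)
      rw [Finset.mem_coe, Finset.mem_product, Finset.mem_filter, Finset.mem_filter]
      exact ⟨⟨Finset.mem_univ _, h2⟩, ⟨Finset.mem_univ _, h3⟩⟩
    · intro d hd1 e he1 hde
      have h1 := Finset.mem_filter.mp (Finset.mem_coe.mp hd1)
      have h2 := Finset.mem_filter.mp (Finset.mem_coe.mp he1)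
      have h3 := Prod.ext_iff.mp hde
      have h4 : α d = α e := sub_left_injective h3.1
      have h5 : β d = β e := sub_left_injective h3.2
      rw [hd d h1.1, hd e h2.1, h4, h5]

theorem fib : FIBStmt.{u} := by
  intro H _ _ _ ι S T A B hA hB i j
  have hch : ∀ d : H, ∃ a b a' b' : H, d ∈ (A i - B i) ∩ (A j - B j) →
      a ∈ A i ∧ b ∈ B i ∧ a' ∈ A j ∧ b' ∈ B j ∧ d = a - b ∧ d = a' - b' := by
    intro d
    by_cases hd : d ∈ (A i - B i) ∩ (A j - B j)
    · rw [Finset.mem_inter] at hd
      obtain ⟨a, ha, b, hb, h1⟩ := Finset.mem_sub.mp hd.1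
      obtain ⟨a', ha', b', hb', h2⟩ := Finset.mem_sub.mp hd.2
      exact ⟨a, b, a', b', fun _ => ⟨ha, hb, ha', hb', h1.symm, h2.symm⟩⟩
    · exact ⟨0, 0, 0, 0, fun h => absurd h hd⟩
  choose a b a' b' hch using hch
  constructor
  · have h := fib_aux ((A i - B i) ∩ (A j - B j)) ((A i + B j) ∩ (A j + B i))
      (fun d => a d + b' d) a b (S i ⊓ T j) (S j ⊓ T i) ?_ ?_ ?_
    · unfold kk cd
      exact_mod_cast h
    · intro d hd
      obtain ⟨h1, h2, h3, h4, h5, h6⟩ := hch d hd
      rw [Finset.mem_inter]
      refine ⟨Finset.add_mem_add h1 h4, ?_⟩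
      have h7 : a d + b' d = a' d + b d := by
        have h8 : a d - b d = a' d - b' d := h5.symm.trans h6
        rw [sub_eq_sub_iff_add_eq_add] at h8
        exact h8
      rw [h7]
      exact Finset.add_mem_add h3 h2
    · intro d hd e he hde
      obtain ⟨h1, h2, h3, h4, h5, h6⟩ := hch d hd
      obtain ⟨k1, k2, k3, k4, k5, k6⟩ := hch e he
      have hde' : a d + b' d = a e + b' e := hde
      have h8 : a d + b' d = a' d + b d := by
        have h8 : a d - b d = a' d - b' d := h5.symm.trans h6
        rw [sub_eq_sub_iff_add_eq_add] at h8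
        exact h8
      have k8 : a e + b' e = a' e + b e := by
        have h8 : a e - b e = a' e - b' e := k5.symm.trans k6
        rw [sub_eq_sub_iff_add_eq_add] at h8
        exact h8
      constructor
      · refine AddSubgroup.mem_inf.mpr ⟨hA i _ h1 _ k1, ?_⟩
        have h9 : a d - a e = b' e - b' d := by
          rw [sub_eq_sub_iff_add_eq_add, hde', add_comm]
        rw [h9]
        exact hB j _ k4 _ h4
      · refine AddSubgroup.mem_inf.mpr ⟨?_, hB i _ h2 _ k2⟩
        have h9 : b d - b e = a' e - a' d := by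
          have h10 : a' d + b d = a' e + b e := by rw [← h8, hde', k8]
          rw [sub_eq_sub_iff_add_eq_add, add_comm (b d) (a' d), h10]
        rw [h9]
        exact hA j _ k3 _ h3
    · intro d hd
      exact (hch d hd).2.2.2.2.1
  · have h := fib_aux ((A i - B i) ∩ (A j - B j)) ((A i - A j) ∩ (B i - B j))
      (fun d => a d - a' d) a b (S i ⊓ S j) (T i ⊓ T j) ?_ ?_ ?_
    · unfold tt cd
      exact_mod_cast h
    · intro d hd
      obtain ⟨h1, h2, h3, h4, h5, h6⟩ := hch d hd
      rw [Finset.mem_inter]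
      refine ⟨Finset.sub_mem_sub h1 h3, ?_⟩
      have h7 : a d - a' d = b d - b' d := by
        have h8 : a d - b d = a' d - b' d := h5.symm.trans h6
        rw [sub_eq_sub_iff_add_eq_add] at h8 ⊢
        rw [h8, add_comm]
      rw [h7]
      exact Finset.sub_mem_sub h2 h4
    · intro d hd e he hde
      obtain ⟨h1, h2, h3, h4, h5, h6⟩ := hch d hd
      obtain ⟨k1, k2, k3, k4, k5, k6⟩ := hch e he
      have hde' : a d - a' d = a e - a' e := hde
      have h8 : a d - a' d = b d - b' d := by
        have h8 : a d - b d = a' d - b' d := h5.symm.trans h6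
        rw [sub_eq_sub_iff_add_eq_add] at h8 ⊢
        rw [h8, add_comm]
      have k8 : a e - a' e = b e - b' e := by
        have h8 : a e - b e = a' e - b' e := k5.symm.trans k6
        rw [sub_eq_sub_iff_add_eq_add] at h8 ⊢
        rw [h8, add_comm]
      constructor
      · refine AddSubgroup.mem_inf.mpr ⟨hA i _ h1 _ k1, ?_⟩
        have h9 : a d - a e = a' d - a' e := by
          rw [sub_eq_sub_iff_add_eq_add] at hde' ⊢
          rw [hde', add_comm]
        rw [h9]
        exact hA j _ h3 _ k3
      · refine AddSubgroup.mem_inf.mpr ⟨hB i _ h2 _ k2, ?_⟩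
        have h10 : b d - b' d = b e - b' e := by rw [← h8, hde', k8]
        have h9 : b d - b e = b' d - b' e := by
          rw [sub_eq_sub_iff_add_eq_add] at h10 ⊢
          rw [h10, add_comm]
        rw [h9]
        exact hB j _ h4 _ k4
    · intro d hd
      exact (hch d hd).2.2.2.2.1

end Pool.Agent.SGB.H67
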